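import Mathlib

namespace Pool.Agent.Results.MP_3c4d8f_co.MinDeg

open Finset

variable {V : Type} [Fintype V] [DecidableEq V] (G : SimpleGraph V) [DecidableRel G.Adj]

/-- PSD fort: nonempty, and no outside vertex has exactly one neighbour in a component of `G[F]` -/
def PSDFort (F : Finset V) : Prop :=
  F.Nonempty ∧ ∀ v ∉ F, ∀ W : (G.induce (F : Set V)).ConnectedComponent,
    {w : (F : Set V) | w ∈ W.supp ∧ G.Adj v w}.ncard ≠ 1

/-- `Z₊Ir`-set: every element has a private PSD fort -/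
def ZIr (S : Finset V) : Prop := ∀ u ∈ S, ∃ F : Finset V, PSDFort G F ∧ S ∩ F = {u}

/-- lower PSD forcing irredundance number -/
noncomputable def zir : ℕ := sInf {n | ∃ S : Finset V, Maximal (ZIr G) S ∧ S.card = n}

def nb (E : Finset V) : Finset V := univ.filter fun y => y ∉ E ∧ ∃ e ∈ E, G.Adj y e

def Cl (F A : Finset V) : Prop := A ⊆ F ∧ ∀ a ∈ A, ∀ b ∈ F, G.Adj a b → b ∈ A

def Good (F : Finset V) : Prop :=
  (∀ A, Cl G F A → A.Nonempty → F ⊆ A) ∧
    ∀ v ∉ F, ∀ w ∈ F, G.Adj v w → ∃ w' ∈ F, w' ≠ w ∧ G.Adj v w'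

variable {G}

lemma mem_nb {E : Finset V} {y : V} : y ∈ nb G E ↔ y ∉ E ∧ ∃ e ∈ E, G.Adj y e := by simp [nb]

lemma Cl.compl {F A : Finset V} (h : Cl G F A) : Cl G F (F \ A) :=
  ⟨sdiff_subset, fun a ha b hb e => mem_sdiff.2 ⟨hb, fun hA =>
    (mem_sdiff.1 ha).2 (h.2 b hA a (mem_sdiff.1 ha).1 e.symm)⟩⟩

open Classical in
noncomputable def cmp (F : Finset V) (W : (G.induce (F : Set V)).ConnectedComponent) : Finset V :=
  univ.filter fun y => ∃ h : y ∈ (F : Set V), (⟨y, h⟩ : (F : Set V)) ∈ W.supp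

lemma mem_cmp {F : Finset V} {W : (G.induce (F : Set V)).ConnectedComponent} {y : V} :
    y ∈ cmp F W ↔ ∃ h : y ∈ (F : Set V), (⟨y, h⟩ : (F : Set V)) ∈ W.supp := by simp [cmp]

lemma cmp_cl (F : Finset V) (W : (G.induce (F : Set V)).ConnectedComponent) :
    Cl G F (cmp F W) := by
  refine ⟨fun y hy => (mem_cmp.1 hy).1, fun a ha b hb e => ?_⟩
  obtain ⟨h, hW⟩ := mem_cmp.1 ha
  refine mem_cmp.2 ⟨hb, ?_⟩
  rw [SimpleGraph.ConnectedComponent.mem_supp_iff] at hW ⊢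
  rw [← hW]
  exact SimpleGraph.ConnectedComponent.sound (SimpleGraph.Adj.reachable (by simpa using e.symm))

lemma fort_of_good {F : Finset V} (hn : F.Nonempty) (h : Good G F) : PSDFort G F := by
  refine ⟨hn, fun v hv W h1 => ?_⟩
  obtain ⟨⟨w, hw⟩, e⟩ := Set.ncard_eq_one.1 h1
  have m : (⟨w, hw⟩ : (F : Set V)) ∈ {w : (F : Set V) | w ∈ W.supp ∧ G.Adj v w} := by
    rw [e]; rfl
  have hF := h.1 _ (cmp_cl F W) ⟨w, mem_cmp.2 ⟨hw, m.1⟩⟩
  obtain ⟨w', hw', ne, a⟩ := h.2 v hv w hw m.2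
  obtain ⟨h', hW⟩ := mem_cmp.1 (hF hw')
  have : (⟨w', h'⟩ : (F : Set V)) ∈ {w : (F : Set V) | w ∈ W.supp ∧ G.Adj v w} := ⟨hW, a⟩
  rw [e] at this
  exact ne (congrArg Subtype.val this)

lemma good_of_fort {F : Finset V} (h : PSDFort G F) {u : V} (hu : u ∈ F) :
    ∃ F' ⊆ F, u ∈ F' ∧ Good G F' := by
  set W := (G.induce (F : Set V)).connectedComponentMk ⟨u, hu⟩
  refine ⟨cmp F W, (cmp_cl F W).1, mem_cmp.2 ⟨hu, rfl⟩, fun A hA ⟨a, ha⟩ b hb => ?_,
    fun v hv w hw e => ?_⟩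
  · obtain ⟨h1, h2⟩ := mem_cmp.1 (hA.1 ha)
    obtain ⟨h3, h4⟩ := mem_cmp.1 hb
    rw [SimpleGraph.ConnectedComponent.mem_supp_iff] at h2 h4
    obtain ⟨p⟩ := SimpleGraph.ConnectedComponent.exact (h2.trans h4.symm)
    have key : ∀ (x y : (F : Set V)) (_ : (G.induce (F : Set V)).Walk x y), x.1 ∈ A → y.1 ∈ A := by
      intro x y p
      induction p with
      | nil => exact id
      | @cons x y z e p ih =>
        intro hx
        have e' : G.Adj x y := by simpa using e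
        exact ih (hA.2 _ hx _ ((cmp_cl F W).2 _ (hA.1 hx) _ y.2 e') e')
    exact key _ _ p ha
  · have hvF : v ∉ F := fun hF => hv ((cmp_cl F W).2 _ hw _ hF e.symm)
    by_contra hc
    push Not at hc
    obtain ⟨h1, h2⟩ := mem_cmp.1 hw
    refine h.2 v hvF W (Set.ncard_eq_one.2 ⟨⟨w, h1⟩, Set.eq_singleton_iff_unique_mem.2
      ⟨⟨h2, e⟩, fun y hy => Subtype.ext ?_⟩⟩)
    by_contra ne
    exact hc y (mem_cmp.2 ⟨y.2, hy.1⟩) ne hy.2

lemma card_swap {A B : Finset V} {v w : V} (hv : v ∈ B) (h : A ⊆ insert w (B.erase v)) :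
    #A ≤ #B := by
  have := card_le_card h
  have := card_insert_le w (B.erase v)
  have := card_erase_add_one hv
  omega

lemma deg_le {v : V} {B : Finset V} (h : ∀ y, G.Adj v y → y ∈ B) : G.degree v ≤ #B :=
  card_le_card fun y hy => h y (by simpa using hy)

/-- a smallest nonempty set with small boundary is a connected fort -/
lemma good_min {j : ℕ} (hd : ∀ v, j < G.degree v) {E : Finset V} (hE : #(nb G E) ≤ j)
    (hm : ∀ E' ⊂ E, E'.Nonempty → j < #(nb G E')) : Good G E := by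
  refine ⟨fun A hA hn => ?_, fun v hv w hw e => ?_⟩
  · by_contra hc
    have h1 := hm A ⟨hA.1, hc⟩ hn
    have : nb G A ⊆ nb G E := fun y hy => by
      obtain ⟨h2, a, ha, e⟩ := mem_nb.1 hy
      exact mem_nb.2 ⟨fun h => h2 (hA.2 a ha y h e.symm), a, hA.1 ha, e⟩
    have := card_le_card this
    omega
  · by_contra hc
    push Not at hc
    by_cases hn : (E.erase w).Nonempty
    · have h1 := hm _ (erase_ssubset hw) hn
      have : #(nb G (E.erase w)) ≤ #(nb G E) := by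
        refine card_swap (v := v) (w := w) (mem_nb.2 ⟨hv, w, hw, e⟩) fun y hy => ?_
        obtain ⟨h2, a, ha, e'⟩ := mem_nb.1 hy
        rw [mem_erase] at h2 ha
        by_cases hy : y = w
        · simp [hy]
        · refine mem_insert_of_mem (mem_erase.2 ⟨?_, mem_nb.2 ⟨fun h => h2 ⟨hy, h⟩, a, ha.2, e'⟩⟩)
          rintro rfl
          exact hc a ha.2 ha.1 e'
      omega
    · have : G.degree w ≤ #(nb G E) := deg_le fun y e' =>
        mem_nb.2 ⟨fun h => hn ⟨y, mem_erase.2 ⟨e'.ne', h⟩⟩, w, hw, e'.symm⟩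
      have := hd w
      omega

lemma exists_min (P : Finset V → Prop) (h : ∃ E, P E) : ∃ E, P E ∧ ∀ E' ⊂ E, ¬ P E' := by
  obtain ⟨E, hE⟩ := exists_minimal_of_wellFoundedLT P h
  exact ⟨E, hE.1, fun E' h1 h2 => h1.2 (hE.2 h2 h1.1)⟩

/-- no set avoiding `S` has boundary smaller than `#S` -/
lemma case1 {S W : Finset V} (hd : ∀ v, #S < G.degree v)
    (H1 : ∀ E : Finset V, E.Nonempty → (∀ y ∈ E, y ∉ S) → #S ≤ #(nb G E))
    (hS : ∀ y ∈ W, y ∉ S) (hW : #(nb G W) ≤ #S) (hm : ∀ E ⊂ W, E.Nonempty → #S < #(nb G E))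
    {x u : V} (hx : x ∈ W) (hu : u ∈ S) : Good G (univ \ insert x (S.erase u)) := by
  set F := univ \ insert x (S.erase u) with hF
  have mF : ∀ y, y ∈ F ↔ y ≠ x ∧ y ∉ S.erase u := by simp [hF]
  have cu := card_erase_add_one hu
  have small : ∀ E : Finset V, E.Nonempty → (∀ y ∈ E, y ∉ S) → ¬ nb G E ⊆ S.erase u :=
    fun E h1 h2 h3 => by
      have := H1 E h1 h2
      have := card_le_card h3
      omega
  have cut : ∀ D, Cl G F D → (W ∩ D).Nonempty → ∀ y ∈ nb G W, y ∈ F → y ∈ D := by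
    intro D hD hn y hy hyF
    by_contra hyD
    have h1 := hm (W ∩ D) ⟨inter_subset_left, fun h =>
      ((mF x).1 (hD.1 (mem_inter.1 (h hx)).2)).1 rfl⟩ hn
    have : #(nb G (W ∩ D)) ≤ #(nb G W) := by
      refine card_swap (v := y) (w := x) hy fun t ht => ?_
      obtain ⟨h2, a, ha, e⟩ := mem_nb.1 ht
      rw [mem_inter] at h2 ha
      by_cases htx : t = x
      · simp [htx]
      refine mem_insert_of_mem (mem_erase.2 ⟨?_, mem_nb.2 ⟨fun h => h2 ⟨h, ?_⟩, a, ha.1, e⟩⟩)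
      · rintro rfl
        exact hyD (hD.2 a ha.2 t hyF e.symm)
      · exact hD.2 a ha.2 t ((mF t).2 ⟨htx, fun h' => hS t h (mem_of_mem_erase h')⟩) e.symm
    omega
  have key : ∀ D, Cl G F D → u ∉ D → ¬ D.Nonempty := by
    intro D hD huD hn
    have hDS : ∀ y ∈ D, y ∉ S := fun y hy h =>
      ((mF y).1 (hD.1 hy)).2 (mem_erase.2 ⟨fun e => huD (e ▸ hy), h⟩)
    obtain ⟨d, hd1, hd2⟩ : ∃ d ∈ D, G.Adj x d := by
      by_contra hc
      push Not at hc
      refine small D hn hDS fun y hy => ?_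
      obtain ⟨h2, a, ha, e⟩ := mem_nb.1 hy
      by_contra h
      exact h2 (hD.2 a ha y ((mF y).2 ⟨fun e' => hc a ha (e' ▸ e), h⟩) e.symm)
    obtain ⟨c, hc1, hc2⟩ : ∃ c ∈ F \ D, G.Adj x c := by
      by_contra hc
      push Not at hc
      refine small (insert x D) (insert_nonempty _ _) (fun y hy => ?_) fun y hy => ?_
      · rcases mem_insert.1 hy with rfl | h
        exacts [hS _ hx, hDS y h]
      · obtain ⟨h2, a, ha, e⟩ := mem_nb.1 hy
        rw [mem_insert, not_or] at h2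
        by_contra h
        have hyF := (mF y).2 ⟨h2.1, h⟩
        rcases mem_insert.1 ha with rfl | ha
        exacts [hc y (mem_sdiff.2 ⟨hyF, h2.2⟩) e.symm, h2.2 (hD.2 a ha y hyF e.symm)]
    obtain ⟨y, hy1, hy2⟩ : ∃ y ∈ W, y ≠ x := by
      by_contra hc
      push Not at hc
      have : G.degree x ≤ #(nb G W) := deg_le fun y e =>
        mem_nb.2 ⟨fun h => e.ne' (hc y h), x, hx, e.symm⟩
      have := hd x
      omega
    have hyF := (mF y).2 ⟨hy2, fun h => hS y hy1 (mem_of_mem_erase h)⟩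
    have both : (W ∩ D).Nonempty ∧ (W ∩ (F \ D)).Nonempty := by
      by_cases hyD : y ∈ D
      · have h1 : (W ∩ D).Nonempty := ⟨y, mem_inter.2 ⟨hy1, hyD⟩⟩
        refine ⟨h1, c, mem_inter.2 ⟨?_, hc1⟩⟩
        by_contra h
        exact (mem_sdiff.1 hc1).2
          (cut D hD h1 c (mem_nb.2 ⟨h, x, hx, hc2.symm⟩) (mem_sdiff.1 hc1).1)
      · have h1 : (W ∩ (F \ D)).Nonempty := ⟨y, mem_inter.2 ⟨hy1, mem_sdiff.2 ⟨hyF, hyD⟩⟩⟩
        refine ⟨⟨d, mem_inter.2 ⟨?_, hd1⟩⟩, h1⟩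
        by_contra h
        exact (mem_sdiff.1
          (cut _ hD.compl h1 d (mem_nb.2 ⟨h, x, hx, hd2.symm⟩) (hD.1 hd1))).2 hd1
    refine small W ⟨x, hx⟩ hS fun t ht => ?_
    by_contra h
    have htF := (mF t).2 ⟨fun e => (mem_nb.1 ht).1 (e ▸ hx), h⟩
    exact (mem_sdiff.1 (cut _ hD.compl both.2 t ht htF)).2 (cut D hD both.1 t ht htF)
  refine ⟨fun A hA hn => ?_, fun v hv w hw e => ?_⟩
  · by_cases huA : u ∈ A
    · intro y hy
      by_contra h
      exact key _ hA.compl (fun h' => (mem_sdiff.1 h').2 huA) ⟨y, mem_sdiff.2 ⟨hy, h⟩⟩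
    · exact absurd hn (key A hA huA)
  · by_contra hc
    push Not at hc
    have hv' : v ∈ insert x (S.erase u) := by simpa [hF, -mem_insert] using hv
    have h1 : #(G.neighborFinset v) ≤ #(insert x (S.erase u)) := by
      refine card_swap (w := w) hv' fun y hy => ?_
      have e' : G.Adj v y := by simpa using hy
      by_cases hyw : y = w
      · simp [hyw]
      refine mem_insert_of_mem (mem_erase.2 ⟨e'.ne', ?_⟩)
      by_contra h
      exact hc y (by simpa [hF, -mem_insert] using h) hyw e'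
    have := card_insert_le x (S.erase u)
    have := hd v
    rw [← SimpleGraph.card_neighborFinset_eq_degree] at this
    omega

/-- rerouting a connected fort around a vertex `x` of a minimal set `E` with small boundary -/
lemma case2 {E F : Finset V} (hd : ∀ v, #(nb G E) + 1 < G.degree v)
    (hm : ∀ E' ⊂ E, E'.Nonempty → #(nb G E) < #(nb G E')) (hF : Good G F) {x u : V}
    (hx : x ∈ E) (hxF : x ∈ F) (hu : u ∈ F) (huE : u ∉ E) :
    ∃ E' ⊆ E.erase x, Good G ((F \ E) ∪ E') := by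
  set g : Finset V → Finset V := fun E' => nb G ((F \ E) ∪ E') ∩ (E ∪ nb G E) with hg
  have mg : ∀ E' y, y ∈ g E' ↔ (y ∉ (F \ E) ∪ E' ∧ ∃ e ∈ (F \ E) ∪ E', G.Adj y e) ∧
      (y ∈ E ∨ y ∈ nb G E) := fun E' y => by rw [hg, mem_inter, mem_nb, mem_union (s := E)]
  obtain ⟨E', ⟨h1, h2, h3⟩, hmin⟩ := exists_min
      (fun E' => E' ⊆ E.erase x ∧ E'.Nonempty ∧ #(g E') ≤ #(nb G E \ F) + 1) (by
    refine ⟨E.erase x, subset_rfl, ?_, (card_le_card (t := insert x (nb G E \ F))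
      fun y hy => ?_).trans (card_insert_le _ _)⟩
    · by_contra hn
      have : G.degree x ≤ #(nb G E) := deg_le fun y e' =>
        mem_nb.2 ⟨fun h => hn ⟨y, mem_erase.2 ⟨e'.ne', h⟩⟩, x, hx, e'.symm⟩
      have := hd x
      omega
    · obtain ⟨⟨a, -⟩, b⟩ := (mg _ _).1 hy
      simp only [mem_union, mem_sdiff, mem_erase, mem_insert] at a ⊢
      rcases b with b | b
      · tauto
      · have := (mem_nb.1 b).1
        tauto)
  have hE' : ∀ y ∈ E', y ∈ E := fun y hy => mem_of_mem_erase (h1 hy)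
  have cT : #(nb G E ∩ F ∪ g E') ≤ #(nb G E) + 1 := by
    have := card_union_le (nb G E ∩ F) (g E')
    have := card_sdiff_add_card_inter (nb G E) F
    omega
  have sub : ∀ B, Cl G E' B → nb G B ⊆ nb G E ∩ F ∪ g E' := by
    intro B hB y hy
    obtain ⟨a, b, hb, e⟩ := mem_nb.1 hy
    have hyE' : y ∉ E' := fun h => a (hB.2 b hb y h e.symm)
    have hZ : y ∈ E ∨ y ∈ nb G E := by
      by_cases h : y ∈ E
      exacts [.inl h, .inr (mem_nb.2 ⟨h, b, hE' b (hB.1 hb), e⟩)]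
    by_cases h : y ∈ F \ E
    · rw [mem_sdiff] at h
      exact mem_union_left _ (mem_inter.2 ⟨hZ.resolve_left h.2, h.1⟩)
    · exact mem_union_right _ ((mg _ _).2 ⟨⟨by simp only [mem_union]; tauto,
        b, mem_union_right _ (hB.1 hb), e⟩, hZ⟩)
  have tight : ∀ B, Cl G E' B → B.Nonempty → ∀ y ∈ nb G E ∩ F ∪ g E', ∃ b ∈ B, G.Adj y b := by
    intro B hB hn y hy
    have := hm B ⟨fun y hy => hE' y (hB.1 hy), fun h => by simpa using h1 (hB.1 (h hx))⟩ hn
    rw [← eq_of_subset_of_card_le (sub B hB) (by omega)] at hy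
    exact (mem_nb.1 hy).2
  have cE' : Cl G E' E' := ⟨subset_rfl, fun _ _ _ h _ => h⟩
  obtain ⟨z, hz⟩ : (nb G E ∩ F).Nonempty := by
    by_contra hn
    refine huE (mem_inter.1 (hF.1 (F ∩ E) ⟨inter_subset_left, fun a ha b hb e => ?_⟩
      ⟨x, mem_inter.2 ⟨hxF, hx⟩⟩ hu)).2
    by_contra h
    exact hn ⟨b, mem_inter.2 ⟨mem_nb.2 ⟨fun h' => h (mem_inter.2 ⟨hb, h'⟩), a,
      (mem_inter.1 ha).2, e.symm⟩, hb⟩⟩
  have zH : ∀ z ∈ nb G E ∩ F, z ∈ (F \ E) ∪ E' := fun z hz =>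
    mem_union_left _ (mem_sdiff.2 ⟨(mem_inter.1 hz).2, (mem_nb.1 (mem_inter.1 hz).1).1⟩)
  have key : ∀ A, Cl G ((F \ E) ∪ E') A → (∀ y ∈ A, y ∉ E') → ¬ A.Nonempty := by
    intro A hA hdj hn
    have nz : ∀ z ∈ nb G E ∩ F, z ∉ A := fun z hz hzA => by
      obtain ⟨b, hb, e⟩ := tight E' cE' h2 z (mem_union_left _ hz)
      exact hdj b (hA.2 z hzA b (mem_union_right _ hb) e) hb
    have aH : ∀ a ∈ A, a ∈ F ∧ a ∉ E := fun a ha =>
      mem_sdiff.1 ((mem_union.1 (hA.1 ha)).resolve_right (hdj a ha))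
    refine nz z hz (hF.1 A ⟨fun a ha => (aH a ha).1, fun a ha b hb e => ?_⟩ hn (mem_inter.1 hz).2)
    refine hA.2 a ha b (mem_union_left _ (mem_sdiff.2 ⟨hb, fun h => ?_⟩)) e
    exact nz a (mem_inter.2 ⟨mem_nb.2 ⟨(aH a ha).2, b, h, e⟩, (aH a ha).1⟩) ha
  have meet : ∀ A, Cl G ((F \ E) ∪ E') A → A.Nonempty → z ∈ A := by
    intro A hA hn
    have : (E' ∩ A).Nonempty := by
      by_contra h
      exact key A hA (fun y a b => h ⟨y, mem_inter.2 ⟨b, a⟩⟩) hn
    obtain ⟨b, hb, e⟩ := tight (E' ∩ A) ⟨inter_subset_left, fun a ha b hb e => mem_inter.2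
      ⟨hb, hA.2 a (mem_inter.1 ha).2 b (mem_union_right _ hb) e⟩⟩ this z (mem_union_left _ hz)
    exact hA.2 b (mem_inter.1 hb).2 z (zH z hz) e.symm
  refine ⟨E', h1, fun A hA hn y hy => ?_, fun v hv w hw e => ?_⟩
  · by_contra h
    exact (mem_sdiff.1 (meet _ hA.compl ⟨y, mem_sdiff.2 ⟨hy, h⟩⟩)).2 (meet A hA hn)
  by_contra hc
  push Not at hc
  by_cases hvZ : v ∈ E ∨ v ∈ nb G E
  · have hvg := (mg _ _).2 ⟨⟨hv, w, hw, e⟩, hvZ⟩
    obtain ⟨b, hb, e'⟩ := tight E' cE' h2 v (mem_union_right _ hvg)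
    obtain rfl : b = w := by
      by_contra ne
      exact hc b (mem_union_right _ hb) ne e'
    refine hmin (E'.erase b) (erase_ssubset hb) ⟨(erase_subset _ _).trans h1, ?_,
      (card_swap (w := b) hvg fun y hy => ?_).trans h3⟩
    · by_contra hn
      have : G.degree b ≤ #(nb G E ∩ F ∪ g E') := deg_le fun y e' => sub E' cE'
        (mem_nb.2 ⟨fun h => hn ⟨y, mem_erase.2 ⟨e'.ne', h⟩⟩, b, hb, e'.symm⟩)
      have := hd b
      omega
    · obtain ⟨⟨a, c, hc', e''⟩, hZ⟩ := (mg _ _).1 hy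
      have c1 : c ∈ (F \ E) ∪ E' := union_subset_union_right (erase_subset _ _) hc'
      have c2 : c ≠ b := by
        rintro rfl
        have := hE' c hb
        simp [this] at hc'
      by_cases hyb : y = b
      · simp [hyb]
      refine mem_insert_of_mem (mem_erase.2 ⟨?_, (mg _ _).2 ⟨⟨?_, c, c1, e''⟩, hZ⟩⟩)
      · rintro rfl
        exact hc c c1 c2 e''
      · simp only [mem_union, mem_erase] at a ⊢
        tauto
  · rw [not_or] at hvZ
    have nE : ∀ y, G.Adj v y → y ∉ E := fun y e h => hvZ.2 (mem_nb.2 ⟨hvZ.1, y, h, e⟩)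
    have hwF : w ∈ F := (mem_sdiff.1 ((mem_union.1 hw).resolve_right
      fun h => nE w e (hE' w h))).1
    obtain ⟨w', a, b, c⟩ := hF.2 v (fun h => hv (mem_union_left _ (mem_sdiff.2 ⟨h, hvZ.1⟩))) w hwF e
    exact hc w' (mem_union_left _ (mem_sdiff.2 ⟨a, nE w' c⟩)) b c

lemma extend [Nonempty V] {S : Finset V} (hd : ∀ v, #S < G.degree v) (hS : ZIr G S) :
    ∃ x ∉ S, ZIr G (insert x S) := by
  by_cases H1 : ∃ E : Finset V, E.Nonempty ∧ (∀ y ∈ E, y ∉ S) ∧ #(nb G E) < #S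
  · obtain ⟨E, ⟨⟨x, hx⟩, h2, h3⟩, hm⟩ := exists_min _ H1
    have hm' : ∀ E' ⊂ E, E'.Nonempty → #(nb G E) < #(nb G E') := fun E' a b => by
      by_contra h
      exact hm E' a ⟨b, fun y hy => h2 y (a.1 hy), by omega⟩
    refine ⟨x, h2 x hx, fun u hu => ?_⟩
    rcases mem_insert.1 hu with rfl | hu
    · refine ⟨E, fort_of_good ⟨u, hx⟩ (good_min (fun v => h3.trans (hd v)) le_rfl hm'), ?_⟩
      ext y
      simp only [mem_inter, mem_insert, mem_singleton]
      have := h2 y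
      grind
    · obtain ⟨F0, hF0, e⟩ := hS u hu
      have e' : ∀ y, y ∈ S ∧ y ∈ F0 ↔ y = u := fun y => by rw [← mem_inter, e, mem_singleton]
      obtain ⟨F, s, huF, hF⟩ := good_of_fort hF0 ((e' u).2 rfl).2
      by_cases hxF : x ∈ F
      · obtain ⟨E', s', hG⟩ := case2 (fun v => by have := hd v; omega) hm' hF hx hxF huF
          (fun h => h2 u h hu)
        have uE : u ∉ E := fun h => h2 u h hu
        refine ⟨_, fort_of_good ⟨u, mem_union_left _ (mem_sdiff.2 ⟨huF, uE⟩)⟩ hG, ?_⟩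
        ext y
        have := e' y
        have := h2 y
        have := @s y
        have := @s' y
        simp only [mem_inter, mem_insert, mem_singleton, mem_union, mem_sdiff, mem_erase] at *
        grind
      · refine ⟨F, fort_of_good ⟨u, huF⟩ hF, ?_⟩
        ext y
        have := e' y
        have := @s y
        simp only [mem_inter, mem_insert, mem_singleton] at *
        grind
  · have H1' : ∀ E : Finset V, E.Nonempty → (∀ y ∈ E, y ∉ S) → #S ≤ #(nb G E) :=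
      fun E a b => not_lt.1 fun c => H1 ⟨E, a, b, c⟩
    obtain ⟨W, ⟨⟨x, hx⟩, h2, h3⟩, hm⟩ := exists_min
        (fun E : Finset V => E.Nonempty ∧ (∀ y ∈ E, y ∉ S) ∧ #(nb G E) ≤ #S) (by
      refine ⟨univ \ S, ?_, by simp, card_le_card fun y hy => by simpa using (mem_nb.1 hy).1⟩
      by_contra hn
      obtain ⟨v⟩ := ‹Nonempty V›
      have : G.degree v ≤ #S := deg_le fun y _ => by
        by_contra h
        exact hn ⟨y, by simpa using h⟩
      have := hd v
      omega)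
    have hm' : ∀ E' ⊂ W, E'.Nonempty → #S < #(nb G E') := fun E' a b => by
      by_contra h
      exact hm E' a ⟨b, fun y hy => h2 y (a.1 hy), by omega⟩
    refine ⟨x, h2 x hx, fun u hu => ?_⟩
    rcases mem_insert.1 hu with rfl | hu
    · refine ⟨W, fort_of_good ⟨u, hx⟩ (good_min hd h3 hm'), ?_⟩
      ext y
      simp only [mem_inter, mem_insert, mem_singleton]
      have := h2 y
      grind
    · have ux : u ≠ x := fun e => h2 x hx (e ▸ hu)
      refine ⟨_, fort_of_good ⟨u, by simp [ux]⟩ (case1 hd H1' h2 h3 hm' hx hu), ?_⟩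
      ext y
      simp only [mem_inter, mem_insert, mem_singleton, mem_sdiff, mem_erase, mem_univ]
      grind

theorem result (V : Type) [Fintype V] [DecidableEq V] [Nonempty V] (G : SimpleGraph V)
    [DecidableRel G.Adj] : G.minDegree ≤ zir G := by
  have hne : {n | ∃ S : Finset V, Maximal (ZIr G) S ∧ S.card = n}.Nonempty := by
    obtain ⟨S, hS⟩ := exists_maximal_of_wellFoundedGT (ZIr G) ⟨∅, fun u hu => by simp at hu⟩
    exact ⟨_, S, hS, rfl⟩
  obtain ⟨S, hS, e⟩ := Nat.sInf_mem hne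
  by_contra hc
  obtain ⟨x, hx, h⟩ := extend (G := G) (S := S)
    (fun v => by have := G.minDegree_le_degree v; unfold zir at hc; omega) hS.1
  exact hx (hS.2 h (subset_insert x S) (mem_insert_self x S))

end Pool.Agent.Results.MP_3c4d8f_co.MinDeg
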